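import Pool.Agent.Work.MP_086516_nt.Main

/-!
Full affirmative answer to Q1: for every `k ≥ 1` the cyclovariety `C_k` has a point on the
unit torus.
-/

namespace Pool.Agent.Results.MP_086516_nt.TorusPoint

open Pool.Agent.Work.MP_086516_nt

/-- For every integer `k ≥ 1`, `C_k(ℂ) ∩ 𝕋^{φ(k)+1}` is nonempty. -/
theorem result : ∀ k : ℕ, 1 ≤ k →
    (cyclovariety k ∩ unitTorus (Nat.totient k + 1)).Nonempty :=
  fun k hk => main k hk

end Pool.Agent.Results.MP_086516_nt.TorusPoint
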